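import Pool.Agent.Work.MP_f96e05_an.Main

set_option autoImplicit false

namespace Pool.Agent.Results.MP_f96e05_an.HyperbolicOpen

open Pool.Agent.Work.MP_f96e05_an

/-- For every inner function `φ` of hyperbolic type (boundary point `ω` with derivative
`α < 1`), the numerical range of `C_φ` on `H²` is the open disc of radius `w(C_φ)`;
in particular it is never closed. -/
theorem result (φ : ℂ → ℂ) (hφ : IsInnerFn φ) (ω : ℂ) (hω : ‖ω‖ = 1) (α : ℝ) (hα : α < 1)
    (hder : Filter.Tendsto (fun r : ℝ => (φ ((r : ℂ) * ω) - ω) / ((r : ℂ) * ω - ω))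
      (nhdsWithin 1 (Set.Iio 1)) (nhds (α : ℂ))) :
    numRange φ = Metric.ball 0 (sSup (norm '' numRange φ)) ∧ ¬ IsClosed (numRange φ) :=
  hyperbolic_open hφ hω hα hder

end Pool.Agent.Results.MP_f96e05_an.HyperbolicOpen
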