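import Pool.Agent.Work.MP_f96e05_an.Parab

set_option autoImplicit false

namespace Pool.Agent.Results.MP_f96e05_an.ParabolicAutOpen

open Pool.Agent.Work.MP_f96e05_an

/-- For every parabolic disc automorphism `φ(z) = l (z - a) / (1 - conj a z)`, `a ≠ 0`
(boundary fixed point `ω` with derivative `1`), the numerical range of `C_φ` on `H²` is the
open disc of radius `w(C_φ)`; in particular it is never closed. -/
theorem result (φ : ℂ → ℂ) (l a : ℂ) (hl : ‖l‖ = 1) (ha : ‖a‖ < 1) (ha0 : a ≠ 0)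
    (hφ : ∀ z : ℂ, ‖z‖ < 1 → φ z = l * (z - a) / (1 - (starRingEnd ℂ) a * z))
    (ω : ℂ) (hω : ‖ω‖ = 1)
    (hder : Filter.Tendsto (fun r : ℝ => (φ ((r : ℂ) * ω) - ω) / ((r : ℂ) * ω - ω))
      (nhdsWithin 1 (Set.Iio 1)) (nhds 1)) :
    numRange φ = Metric.ball 0 (sSup (norm '' numRange φ)) ∧ ¬ IsClosed (numRange φ) :=
  parabolic_aut_open hl ha ha0 hφ hω hder

end Pool.Agent.Results.MP_f96e05_an.ParabolicAutOpen
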